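import Mathlib
import Pool.Agent.V11145.TriangleMultipartite
import Pool.Agent.V11145.SidorenkoClosure

/-!
# MP_c6effb_co : partial results on Sidorenko's inequality `R(3,G) <= k + m`

Closure operations, the case of complete multipartite graphs, and the structure of a
counterexample with the least number of vertices.
-/

namespace Pool.Agent.Results.MP_c6effb_co.SidorenkoReductions

open SimpleGraph Pool.Agent.V11145.SidorenkoClosure

/-- Complete multipartite graphs. -/
lemma multipartite_holds {W : Type} [Fintype W] (G : SimpleGraph W)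
    (hG : G.IsCompleteMultipartite) : SidorenkoHolds G := by
  intro n hn H hH
  exact Pool.Agent.V11145.TriangleMultipartite.sidorenko_multipartite G hG H hH (by simpa using hn)

/-- `G` is a counterexample to Sidorenko's inequality all of whose proper induced subgraphs satisfy
the inequality. -/
def IsMinimalCounterexample {W : Type} [Fintype W] (G : SimpleGraph W) : Prop :=
  ¬ SidorenkoHolds G ∧
    ∀ A : Finset W, A ≠ Finset.univ → SidorenkoHolds (G.induce (A : Set W))

lemma min_degree {W : Type} [Fintype W] [DecidableEq W] (G : SimpleGraph W) [DecidableRel G.Adj]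
    (hG : IsMinimalCounterexample G) (v : W) :
    G.edgeSet.ncard < G.degree v * (Fintype.card W - 1) := by
  classical
  by_contra hcon
  push Not at hcon
  apply hG.1
  by_cases hk : Fintype.card W = 1
  · apply multipartite_holds
    have : Subsingleton W := Fintype.card_le_one_iff_subsingleton.1 hk.le
    refine ⟨?_⟩
    intro a b c _ _
    rw [Subsingleton.elim a c]
    exact G.irrefl
  have hvne : ({v} : Finset W) ≠ Finset.univ := by
    intro h
    apply hk
    rw [← Finset.card_univ, ← h, Finset.card_singleton]
  have hvc : ({v}ᶜ : Finset W) ≠ Finset.univ := by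
    intro h
    have : v ∈ ({v}ᶜ : Finset W) := by rw [h]; exact Finset.mem_univ v
    simp at this
  refine sidorenko_glue G ({v}ᶜ) ?_ (hG.2 _ hvc) ?_
  · have h1 : (G.induce (((({v}ᶜ : Finset W))ᶜ : Finset W) : Set W)).edgeSet.ncard = 0 := by
      rw [ncard_edges_induce, compl_compl]
      simp [ee, Pool.Agent.V11145.TriangleMultipartite.dd]
      exact (Finset.card_filter_le _ _).trans (by simp)
    rw [h1, zero_add]
    refine le_trans (Nat.mul_le_mul_right _ ?_) hcon
    rw [← SimpleGraph.card_neighborFinset_eq_degree]
    apply Finset.card_le_card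
    intro a ha
    rw [Finset.mem_filter] at ha
    obtain ⟨b, hb, hab⟩ := ha.2
    have : b = v := by simpa using hb
    rw [this] at hab
    rw [SimpleGraph.mem_neighborFinset]
    exact hab.symm
  · rw [compl_compl]
    exact hG.2 _ hvne

lemma connected {W : Type} [Fintype W] [DecidableEq W] (G : SimpleGraph W) [DecidableRel G.Adj]
    (hG : IsMinimalCounterexample G) : G.Connected := by
  classical
  have hne : Nonempty W := by
    by_contra hcon
    rw [not_nonempty_iff] at hcon
    apply hG.1
    apply multipartite_holds
    exact ⟨fun a => (hcon.false a).elim⟩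
  rw [SimpleGraph.connected_iff_exists_forall_reachable]
  obtain ⟨v⟩ := hne
  refine ⟨v, ?_⟩
  by_contra hcon
  push Not at hcon
  obtain ⟨w, hw⟩ := hcon
  apply hG.1
  let A : Finset W := Finset.univ.filter (fun a => G.Reachable v a)
  have hA : A ≠ Finset.univ := by
    intro h
    have : w ∈ A := by rw [h]; exact Finset.mem_univ w
    exact hw (Finset.mem_filter.1 this).2
  have hAc : Aᶜ ≠ Finset.univ := by
    intro h
    have : v ∈ Aᶜ := by rw [h]; exact Finset.mem_univ v
    rw [Finset.mem_compl] at this
    exact this (Finset.mem_filter.2 ⟨Finset.mem_univ v, SimpleGraph.Reachable.refl v⟩)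
  refine sidorenko_glue G A ?_ (hG.2 _ hA) (hG.2 _ hAc)
  have h0 : (A.filter (fun a => ∃ b, b ∉ A ∧ G.Adj a b)) = ∅ := by
    rw [Finset.filter_eq_empty_iff]
    rintro a ha ⟨b, hb, hab⟩
    apply hb
    rw [Finset.mem_filter]
    exact ⟨Finset.mem_univ b, (Finset.mem_filter.1 ha).2.trans hab.reachable⟩
  rw [h0, Finset.card_empty, zero_mul, add_zero, ncard_edges_induce, ← ee_univ]
  unfold ee
  apply Nat.div_le_div_right
  unfold Pool.Agent.V11145.TriangleMultipartite.dd
  refine (Finset.sum_le_sum (fun a _ => Finset.card_le_card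
    (Finset.filter_subset_filter _ (Finset.subset_univ Aᶜ)))).trans ?_
  exact Finset.sum_le_sum_of_subset (Finset.subset_univ _)

lemma no_dominating {W : Type} [Fintype W] [DecidableEq W] (G : SimpleGraph W)
    [DecidableRel G.Adj]
    (hG : IsMinimalCounterexample G) (v : W) : ∃ w, w ≠ v ∧ ¬ G.Adj v w := by
  classical
  by_contra hcon
  push Not at hcon
  apply hG.1
  by_cases hk : Fintype.card W = 1
  · apply multipartite_holds
    have : Subsingleton W := Fintype.card_le_one_iff_subsingleton.1 hk.le
    refine ⟨?_⟩
    intro a b c _ _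
    rw [Subsingleton.elim a c]
    exact G.irrefl
  have hk0 : 0 < Fintype.card W := Fintype.card_pos_iff.2 ⟨v⟩
  have hvc : ({v}ᶜ : Finset W) ≠ Finset.univ := by
    intro h
    have : v ∈ ({v}ᶜ : Finset W) := by rw [h]; exact Finset.mem_univ v
    simp at this
  refine sidorenko_join G {v} ?_ ?_ ?_ ?_ (hG.2 _ hvc)
  · intro a ha b hb
    rw [Finset.mem_singleton] at ha hb
    rw [ha, hb]
    exact G.irrefl
  · intro a ha b hb
    rw [Finset.mem_singleton] at ha hb
    rw [ha]
    exact hcon b hb
  · rw [Finset.card_singleton]; omega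
  · rw [Finset.card_singleton]
    have h1 : G.edgeSet.ncard = G.edgeFinset.card := by
      rw [← SimpleGraph.coe_edgeFinset, Set.ncard_coe_finset]
    rw [h1]
    have h2 := G.card_edgeFinset_le_card_choose_two
    have h3 : 2 * (Fintype.card W).choose 2 = Fintype.card W * (Fintype.card W - 1) := by
      rw [Nat.choose_two_right]
      exact Nat.mul_div_cancel' (Nat.even_mul_pred_self _).two_dvd
    omega

/-- Partial results on Sidorenko's conjecture `R(3,G) <= k + m`.
(1) It holds for every complete multipartite graph.
(2) It passes from `G - P` to `G` when `P` is an independent set of `G` completely joined to the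
rest, `2|P| <= k` and `2m <= k (k - |P|)`.
(3) It passes from `G[A]` and `G[B]` to `G` when `V(G)` is the disjoint union of `A` and `B` and
`e(G[B]) + |T| (k - 1) <= m`, where `T` is the set of vertices of `A` with a neighbour in `B`.
(4) A counterexample all of whose proper induced subgraphs satisfy the inequality is connected, has
no dominating vertex, and every vertex has degree larger than `m / (k - 1)` (that is, more than
half of the average degree). -/
theorem result :
    (∀ (W : Type) [Fintype W] (G : SimpleGraph W), G.IsCompleteMultipartite →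
      SidorenkoHolds G) ∧
    (∀ (W : Type) [Fintype W] [DecidableEq W] (G : SimpleGraph W) (P : Finset W),
      (∀ a ∈ P, ∀ b ∈ P, ¬ G.Adj a b) → (∀ a ∈ P, ∀ b, b ∉ P → G.Adj a b) →
      2 * P.card ≤ Fintype.card W →
      2 * G.edgeSet.ncard ≤ Fintype.card W * (Fintype.card W - P.card) →
      SidorenkoHolds (G.induce ((Pᶜ : Finset W) : Set W)) → SidorenkoHolds G) ∧
    (∀ (W : Type) [Fintype W] [DecidableEq W] (G : SimpleGraph W) [DecidableRel G.Adj]
      (A : Finset W),
      (G.induce ((Aᶜ : Finset W) : Set W)).edgeSet.ncard +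
        (A.filter (fun a => ∃ b, b ∉ A ∧ G.Adj a b)).card * (Fintype.card W - 1)
          ≤ G.edgeSet.ncard →
      SidorenkoHolds (G.induce (A : Set W)) →
      SidorenkoHolds (G.induce ((Aᶜ : Finset W) : Set W)) → SidorenkoHolds G) ∧
    (∀ (W : Type) [Fintype W] [DecidableEq W] (G : SimpleGraph W) [DecidableRel G.Adj],
      IsMinimalCounterexample G → G.Connected ∧ (∀ v, ∃ w, w ≠ v ∧ ¬ G.Adj v w) ∧
        ∀ v, G.edgeSet.ncard < G.degree v * (Fintype.card W - 1)) := by
  refine ⟨fun W _ G hG => multipartite_holds G hG, ?_, ?_, ?_⟩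
  · intro W _ _ G P h1 h2 h3 h4 h5
    exact sidorenko_join G P h1 h2 h3 h4 h5
  · intro W _ _ G _ A h1 h2 h3
    exact sidorenko_glue G A h1 h2 h3
  · intro W _ _ G _ hG
    exact ⟨connected G hG, no_dominating G hG, min_degree G hG⟩

end Pool.Agent.Results.MP_c6effb_co.SidorenkoReductions
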